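import Pool.Agent.N299.DT.Stm2

/-!
Project DT (MP_fb67b4_an): algebra of the Rørdam–Winter relations (helper618).
-/

set_option autoImplicit false

noncomputable section

namespace Pool.Agent.N618.DT

open Pool.Agent.N299 Pool.Agent.N299.DT

section alg

variable {F : Type} [CStarAlgebra F] {n : ℕ} {φ : Fin (n + 1) → Fin (n + 1) → F} {v : F}

lemma hmul (H : RV φ v) (i j : Fin (n + 1)) : φ i j * (∑ m, φ m m) = (∑ m, φ m m) * φ i j := by
  rw [Finset.mul_sum, Finset.sum_eq_single j]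
  · exact H.mul i j j
  · intro b _ hb
    exact H.orth i j b b (fun h => hb h.symm)
  · intro h
    exact absurd (Finset.mem_univ _) h

lemma hv (H : RV φ v) : (∑ m, φ m m) * v = v := by
  have h1 : φ 0 0 * (φ 0 0 * v) = v := by rw [H.ve, H.ve]
  rw [← mul_assoc, H.mul, mul_assoc, H.ve] at h1
  exact h1

lemma hstar (H : RV φ v) : star (∑ m, φ m m) = ∑ m, φ m m := by
  rw [star_sum]
  exact Finset.sum_congr rfl fun m _ => H.st m m

lemma vsh (H : RV φ v) : star v * (∑ m, φ m m) = star v := by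
  have h := congrArg star (hv H)
  rwa [star_mul, hstar H] at h

lemma vsvv (H : RV φ v) : star v * v * v = 0 := by
  rw [H.vv, sub_mul, one_mul, hv H, sub_self]

lemma vv0 (H : RV φ v) : v * v = 0 := by
  rw [← CStarRing.star_mul_self_eq_zero_iff, star_mul]
  calc star v * star v * (v * v) = star v * (star v * v * v) := by simp only [mul_assoc]
    _ = 0 := by rw [vsvv H, mul_zero]

lemma pv (H : RV φ v) {i j : Fin (n + 1)} (hj : j ≠ 0) : φ i j * v = 0 := by
  rw [← H.ve, ← mul_assoc, H.orth i j 0 0 hj, zero_mul]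

lemma vsp (H : RV φ v) {i j : Fin (n + 1)} (hi : i ≠ 0) : star v * φ i j = 0 := by
  have h := congrArg star (pv H (i := j) hi)
  rwa [star_mul, H.st, star_zero] at h

lemma vse (H : RV φ v) : star v * φ 0 0 = star v := by
  have h := congrArg star H.ve
  rwa [star_mul, H.st] at h

lemma vpv (H : RV φ v) (i : Fin (n + 1)) : v * φ i 0 * v = 0 := by
  rw [← CStarRing.star_mul_self_eq_zero_iff]
  have e : star (v * φ i 0 * v) * (v * φ i 0 * v)
      = star (φ i 0 * v) * ((star v * v) * φ i 0 * v) := by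
    simp only [star_mul, mul_assoc]
  rw [e, H.vv, sub_mul, one_mul, ← hmul H, sub_mul, mul_assoc (φ i 0), hv H, sub_self, mul_zero]

/-- `1 - h` and `φ` -/
lemma hp (H : RV φ v) (i j : Fin (n + 1)) :
    (star v * v) * φ i j = φ i j * (star v * v) := by
  rw [H.vv, sub_mul, one_mul, mul_sub, mul_one, hmul H]

lemma zel_mul_p (H : RV φ v) (j k : Fin (n + 1)) :
    zel φ v * φ j k = star v * v * φ j k + φ j 0 * (v * star v) * φ 0 k := by
  unfold zel
  rw [add_mul, Finset.sum_mul, Finset.sum_eq_single j]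
  · congr 1
    calc φ j 0 * (v * star v) * φ 0 j * φ j k = φ j 0 * v * star v * (φ 0 j * φ j k) := by
          simp only [mul_assoc]
      _ = φ j 0 * v * (star v * (∑ m, φ m m)) * φ 0 k := by
          rw [H.mul]; simp only [mul_assoc]
      _ = φ j 0 * (v * star v) * φ 0 k := by rw [vsh H]; simp only [mul_assoc]
  · intro b _ hb
    rw [mul_assoc, H.orth 0 b j k hb, mul_zero]
  · intro h
    exact absurd (Finset.mem_univ _) h

lemma p_mul_zel (H : RV φ v) (j k : Fin (n + 1)) :
    φ j k * zel φ v = φ j k * (star v * v) + φ j 0 * (v * star v) * φ 0 k := by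
  unfold zel
  rw [mul_add, Finset.mul_sum, Finset.sum_eq_single k]
  · congr 1
    calc φ j k * (φ k 0 * (v * star v) * φ 0 k) = (φ j k * φ k 0) * (v * star v) * φ 0 k := by
          simp only [mul_assoc]
      _ = φ j 0 * ((∑ m, φ m m) * v) * star v * φ 0 k := by
          rw [H.mul, ← hmul H]; simp only [mul_assoc]
      _ = φ j 0 * (v * star v) * φ 0 k := by rw [hv H]; simp only [mul_assoc]
  · intro b _ hb
    rw [← mul_assoc, ← mul_assoc, H.orth j k b 0 (fun h => hb h.symm), zero_mul, zero_mul]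
  · intro h
    exact absurd (Finset.mem_univ _) h

lemma zel_comm_p (H : RV φ v) (j k : Fin (n + 1)) : zel φ v * φ j k = φ j k * zel φ v := by
  rw [zel_mul_p H, p_mul_zel H, hp H]

lemma zel_mul_v (H : RV φ v) : zel φ v * v = v * star v * v := by
  unfold zel
  rw [add_mul, vsvv H, zero_add, Finset.sum_mul, Finset.sum_eq_single 0]
  · calc φ 0 0 * (v * star v) * φ 0 0 * v = (φ 0 0 * v) * star v * (φ 0 0 * v) := by
          simp only [mul_assoc]
      _ = v * star v * v := by rw [H.ve]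
  · intro b _ hb
    rw [mul_assoc, pv H hb, mul_zero]
  · intro h
    exact absurd (Finset.mem_univ _) h

lemma v_mul_zel (H : RV φ v) : v * zel φ v = v * star v * v := by
  unfold zel
  rw [mul_add, Finset.mul_sum, Finset.sum_eq_zero, add_zero, mul_assoc]
  intro b _
  calc v * (φ b 0 * (v * star v) * φ 0 b) = (v * φ b 0 * v) * star v * φ 0 b := by
        simp only [mul_assoc]
    _ = 0 := by rw [vpv H, zero_mul, zero_mul]

lemma zel_star (H : RV φ v) : star (zel φ v) = zel φ v := by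
  unfold zel
  rw [star_add, star_sum]
  congr 1
  · rw [star_mul, star_star]
  · refine Finset.sum_congr rfl fun i _ => ?_
    rw [star_mul, star_mul, star_mul, star_star, H.st, H.st]
    simp only [mul_assoc]

lemma term_pos (H : RV φ v) (i : Fin (n + 1)) : Pos (φ i 0 * (v * star v) * φ 0 i) := by
  refine ⟨star v * φ 0 i, ?_⟩
  rw [star_mul, star_star, H.st]
  simp only [mul_assoc]

lemma zel_pos (H : RV φ v) : Pos (zel φ v) :=
  (pos_star_mul v).add (Pos.sum _ _ fun i _ => term_pos H i)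

lemma h_pos (H : RV φ v) : Pos (∑ m, φ m m) := Pos.sum _ _ fun i _ => H.pos i

/-- scalars: if `(t : ℂ) • 1` is positive and `1 ≠ 0` then `0 ≤ t` -/
lemma nonneg_of_pos (h1 : (1 : F) ≠ 0) {t : ℝ} (h : Pos ((t : ℂ) • (1 : F))) : 0 ≤ t := by
  let _ : PartialOrder F := CStarAlgebra.spectralOrder F
  let _ : StarOrderedRing F := CStarAlgebra.spectralOrderedRing F
  have : Nontrivial F := ⟨⟨1, 0, h1⟩⟩
  rw [pos_iff] at h
  have h2 := spectrum_nonneg_of_nonneg (𝕜 := ℝ) h (x := t)
  apply h2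
  rw [real_smul_eq, ← Algebra.algebraMap_eq_smul_one, spectrum.scalar_eq]
  exact Set.mem_singleton t

theorem zel_le (H : RV φ v) (h1 : (1 : F) ≠ 0) {t : ℝ} (ht : zel φ v = (t : ℂ) • (1 : F)) :
    0 ≤ t ∧ t ≤ 1 := by
  refine ⟨nonneg_of_pos h1 (ht ▸ zel_pos H), ?_⟩
  let _ : PartialOrder F := CStarAlgebra.spectralOrder F
  let _ : StarOrderedRing F := CStarAlgebra.spectralOrderedRing F
  have : Nontrivial F := ⟨⟨1, 0, h1⟩⟩
  -- 0 ≤ h ≤ 1
  have hh0 : 0 ≤ ∑ m, φ m m := (pos_iff _).1 (h_pos H)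
  have hh1 : ∑ m, φ m m ≤ 1 := by
    rw [← sub_nonneg, ← H.vv]
    exact star_mul_self_nonneg v
  have hvn : ‖v‖ ≤ 1 := by
    have : ‖v‖ * ‖v‖ ≤ 1 := by
      rw [← CStarRing.norm_star_mul_self, H.vv]
      have := CStarAlgebra.norm_le_norm_of_nonneg_of_le (a := 1 - ∑ m, φ m m) (b := 1)
        (sub_nonneg.2 hh1) (by simpa using hh0)
      simpa using this
    nlinarith [norm_nonneg v]
  have hvv : v * star v ≤ 1 := by
    have h2 : ‖v * star v‖ ≤ 1 := by
      rw [CStarRing.norm_self_mul_star]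
      nlinarith [norm_nonneg v]
    exact (CStarAlgebra.norm_le_one_iff_of_nonneg _ (mul_star_self_nonneg v)).1 h2
  have h3 : ∀ i, φ i 0 * (v * star v) * φ 0 i ≤ (∑ m, φ m m) * φ i i := by
    intro i
    have h4 : φ i 0 * (v * star v) * φ 0 i ≤ φ i 0 * 1 * φ 0 i := by
      rw [← H.st 0 i]
      exact star_left_conjugate_le_conjugate hvv (φ 0 i)
    rwa [mul_one, H.mul] at h4
  have h5 : ∑ i, φ i 0 * (v * star v) * φ 0 i ≤ (∑ m, φ m m) * (∑ m, φ m m) := by
    rw [Finset.mul_sum]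
    exact Finset.sum_le_sum fun i _ => h3 i
  have h6 : (∑ m, φ m m) * (∑ m, φ m m) ≤ ∑ m, φ m m := by
    have := CStarAlgebra.pow_antitone hh0 hh1 (show 1 ≤ 2 by norm_num)
    simpa [pow_two] using this
  have h8 : zel φ v ≤ 1 := by
    unfold zel
    rw [H.vv]
    calc (1 - ∑ m, φ m m) + ∑ i, φ i 0 * (v * star v) * φ 0 i
        ≤ (1 - ∑ m, φ m m) + ∑ m, φ m m := add_le_add le_rfl (h5.trans h6)
      _ = 1 := by abel
  have h9 : 0 ≤ 1 - t := by
    apply nonneg_of_pos h1
    rw [pos_iff]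
    have : ((1 - t : ℝ) : ℂ) • (1 : F) = 1 - zel φ v := by
      rw [ht]
      push_cast
      rw [sub_smul, one_smul]
    rw [this]
    exact sub_nonneg.2 h8
  linarith

end alg

theorem t_RVZ : S_RVZ := by
  intro n F _ φ v H
  exact ⟨zel_star H, zel_comm_p H, by rw [zel_mul_v H, v_mul_zel H], fun t h1 ht => zel_le H h1 ht⟩

end Pool.Agent.N618.DT
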