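import Pool.Agent.N618.DT.Ev

/-!
Project DT (MP_fb67b4_an): fibre of the dimension drop algebra at `0` (helper618).
-/

set_option autoImplicit false

noncomputable section

namespace Pool.Agent.N618.DT

open Pool.Agent.N299 Pool.Agent.N299.DT

section

variable {F : Type} [CStarAlgebra F]

lemma pos_sum_zero {ι : Type} (s : Finset ι) (f : ι → F) (h : ∀ i ∈ s, Pos (f i))
    (h0 : ∑ i ∈ s, f i = 0) : ∀ i ∈ s, f i = 0 := by
  let _ : PartialOrder F := CStarAlgebra.spectralOrder F
  let _ : StarOrderedRing F := CStarAlgebra.spectralOrderedRing F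
  exact (Finset.sum_eq_zero_iff_of_nonneg fun i hi => (pos_iff _).1 (h i hi)).1 h0

lemma pos_add_zero {x y : F} (hx : Pos x) (hy : Pos y) (h0 : x + y = 0) : x = 0 := by
  let _ : PartialOrder F := CStarAlgebra.spectralOrder F
  let _ : StarOrderedRing F := CStarAlgebra.spectralOrderedRing F
  rw [pos_iff] at hx hy
  exact le_antisymm (by
    have : x = -y := eq_neg_of_add_eq_zero_left h0
    rw [this]; exact neg_nonpos.2 hy) hx

lemma muf_single {m : ℕ} (b : Fin m → F) (i j : Fin m) :
    muf b (Matrix.single i j 1) = b i * star (b j) := by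
  unfold muf
  rw [Finset.sum_eq_single i, Finset.sum_eq_single j]
  · rw [Matrix.single_apply_same, one_smul]
  · intro l _ hl
    rw [Matrix.single_apply_of_ne _ _ _ _ _ (fun h => hl h.2.symm), zero_smul]
  · intro h
    exact absurd (Finset.mem_univ _) h
  · intro k _ hk
    refine Finset.sum_eq_zero fun l _ => ?_
    rw [Matrix.single_apply_of_ne _ _ _ _ _ (fun h => hk h.1.symm), zero_smul]
  · intro h
    exact absurd (Finset.mem_univ _) h

end

theorem t_FB0 : S_FB0 := by
  intro n F _ φ v H hz φ0 k0 v0 HV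
  have hz' : star v * v + ∑ i, φ i 0 * (v * star v) * φ 0 i = 0 := by
    have : zel φ v = 0 := by rw [hz]; simp
    exact this
  have hv0 : v = 0 := by
    rw [← CStarRing.star_mul_self_eq_zero_iff]
    exact pos_add_zero (pos_star_mul v) (Pos.sum _ _ fun i _ => term_pos H i) hz'
  have hh : ∑ m, φ m m = 1 := by
    have := H.vv
    rw [hv0, mul_zero] at this
    exact (sub_eq_zero.1 this.symm).symm
  obtain ⟨ρ, hρ⟩ := mu (fun i => φ i 0) (φ 0 0) (fun k l => by
      rw [H.st]
      by_cases h : k = l
      · subst h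
        rw [if_pos rfl, H.mul, hh, one_mul]
      · rw [if_neg h, H.orth _ _ _ _ h]) (fun k => by rw [H.mul, hh, one_mul]) (by
      rw [← hh]
      refine Finset.sum_congr rfl fun k _ => ?_
      rw [H.st, H.mul, hh, one_mul])
  refine ⟨ρ.comp (E0 n), fun i j => ?_, ?_⟩
  · rw [StarAlgHom.comp_apply, E0_ph HV, hρ, muf_single, H.st, H.mul, hh, one_mul]
  · rw [StarAlgHom.comp_apply, E0_v HV, map_zero, hv0]

end Pool.Agent.N618.DT
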