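import Pool.Agent.N618.DT.FB0

/-!
Project DT (MP_fb67b4_an): fibre of the dimension drop algebra at `1` (helper618).
-/

set_option autoImplicit false

noncomputable section

namespace Pool.Agent.N618.DT

open Pool.Agent.N299 Pool.Agent.N299.DT

theorem t_FB1 : S_FB1 := by
  intro n F _ φ v H hz φ0 k0 v0 HV
  have hz1 : zel φ v = 1 := by rw [hz]; simp
  set h := ∑ m, φ m m with hh
  -- h is a projection
  have hc : star (1 - h) = 1 - h := by rw [star_sub, star_one, hstar H]
  have h1 : (1 - h) * (1 - h) = 1 - h := by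
    have e : zel φ v * (1 - h) = (1 - h) * (1 - h) := by
      unfold zel
      rw [add_mul, H.vv, Finset.sum_mul]
      refine (congrArg _ (Finset.sum_eq_zero fun i _ => ?_)).trans (add_zero _)
      calc φ i 0 * (v * star v) * φ 0 i * (1 - h) = φ i 0 * v * (star v * (φ 0 i * (1 - h))) := by
            simp only [mul_assoc]
        _ = φ i 0 * v * ((star v * (1 - h)) * φ 0 i) := by
            have : φ 0 i * (1 - h) = (1 - h) * φ 0 i := by
              rw [mul_sub, mul_one, hmul H, sub_mul, one_mul]
            rw [this, mul_assoc (star v)]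
        _ = 0 := by rw [mul_sub, mul_one, vsh H, sub_self, zero_mul, mul_zero]
    rw [← e, hz1, one_mul]
  have h2 : (1 - h) * h = 0 := by
    have : (1 - h) * (1 - (1 - h)) = 0 := by rw [mul_sub, mul_one, h1, sub_self]
    rwa [sub_sub_cancel] at this
  have hv1 : v * star v * v = v := by rw [← zel_mul_v H, hz1, one_mul]
  have hvh : v * (1 - h) = v := by rw [← H.vv, ← mul_assoc, hv1]
  have hpz : ∀ i j, φ i j * (1 - h) = 0 := by
    intro i j
    rw [← CStarRing.star_mul_self_eq_zero_iff, star_mul, hc, H.st]
    calc (1 - h) * φ j i * (φ i j * (1 - h)) = (1 - h) * (φ j i * φ i j) * (1 - h) := by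
          simp only [mul_assoc]
      _ = ((1 - h) * h) * φ j j * (1 - h) := by rw [H.mul, ← hh]; simp only [mul_assoc]
      _ = 0 := by rw [h2, zero_mul, zero_mul]
  have hph : ∀ i j, h * φ i j = φ i j := by
    intro i j
    have := hpz i j
    rw [mul_sub, mul_one, sub_eq_zero] at this
    rw [← hmul H]
    exact this.symm
  have hpm : ∀ i j l, φ i j * φ j l = φ i l := by
    intro i j l
    rw [H.mul, hph]
  -- φ 0 0 = v v*
  have hvs : v * star v = φ 0 0 := by
    have e : φ 0 0 * zel φ v = φ 0 0 := by rw [hz1, mul_one]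
    rw [p_mul_zel H, H.vv, hpz, zero_add] at e
    calc v * star v = (φ 0 0 * v) * (star v * φ 0 0) := by rw [H.ve, vse H]
      _ = φ 0 0 * (v * star v) * φ 0 0 := by simp only [mul_assoc]
      _ = φ 0 0 := e
  have hvp : ∀ j, v * φ j 0 = 0 := by
    intro j
    calc v * φ j 0 = v * (1 - h) * φ j 0 := by rw [hvh]
      _ = v * ((1 - h) * φ j 0) := by rw [mul_assoc]
      _ = 0 := by rw [sub_mul, one_mul, hph, sub_self, mul_zero]
  have hpv : ∀ j, φ 0 j * star v = 0 := by
    intro j
    have := congrArg star (hvp j)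
    rwa [star_mul, H.st, star_zero] at this
  let b : Fin (n + 2) → F := Fin.lastCases (motive := fun _ => F) (star v) (fun i => φ i 0)
  have bl : b (Fin.last (n + 1)) = star v := Fin.lastCases_last ..
  have bc : ∀ i : Fin (n + 1), b i.castSucc = φ i 0 := fun i => Fin.lastCases_castSucc ..
  obtain ⟨ρ, hρ⟩ := mu b (φ 0 0) (fun k l => by
      refine Fin.lastCases ?_ (fun k => ?_) k
      · refine Fin.lastCases ?_ (fun l => ?_) l
        · rw [bl, star_star, if_pos rfl, hvs]
        · rw [bl, bc, star_star, if_neg (fun h => Fin.castSucc_ne_last _ h.symm), hvp]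
      · refine Fin.lastCases ?_ (fun l => ?_) l
        · rw [bl, bc, H.st, if_neg (fun h => Fin.castSucc_ne_last _ h), hpv]
        · rw [bc, bc, H.st]
          by_cases h : k = l
          · subst h
            rw [if_pos rfl, hpm]
          · rw [if_neg (fun h' => h (Fin.castSucc_injective _ h')), H.orth _ _ _ _ h]) (fun k => by
      refine Fin.lastCases ?_ (fun k => ?_) k
      · rw [bl, vse H]
      · rw [bc, hpm]) (by
      rw [Fin.sum_univ_castSucc, bl, star_star, H.vv]
      have : ∀ i : Fin (n + 1), b i.castSucc * star (b i.castSucc) = φ i i := by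
        intro i
        rw [bc, H.st, hpm]
      simp only [this]
      rw [← hh]
      abel)
  refine ⟨ρ.comp (E1 n), fun i j => ?_, ?_⟩
  · rw [StarAlgHom.comp_apply, E1_ph HV, hρ, muf_single, bc, bc, H.st, hpm]
  · rw [StarAlgHom.comp_apply, E1_v HV, hρ, muf_single, bl, star_star]
    rw [← Fin.castSucc_zero, bc, H.ve]

end Pool.Agent.N618.DT
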