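import Pool.Agent.N618.DT.Mu
import Pool.Agent.H930R2.ZS_WU

/-!
Project DT (MP_fb67b4_an): evaluation of the dimension drop algebra at the end points (helper618).
-/

set_option autoImplicit false

open scoped ComplexConjugate Kronecker Matrix.Norms.L2Operator

noncomputable section

namespace Pool.Agent.N618.DT

open Pool.Agent.N299 Pool.Agent.N299.DT
open Pool.Agent.H308R2.ZS

lemma lft_apply (n : ℕ) (x : Matrix (Fin (n + 1)) (Fin (n + 1)) ℂ) (i j : Fin (n + 1)) :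
    lft n x (i, 0) (j, 0) = x i j := by
  unfold lft
  rw [Matrix.kronecker_apply]
  simp

lemma rgt_apply (n : ℕ) (y : Matrix (Fin (n + 2)) (Fin (n + 2)) ℂ) (i j : Fin (n + 2)) :
    rgt n y (0, i) (0, j) = y i j := by
  unfold rgt
  rw [Matrix.kronecker_apply]
  simp

def e0 (n : ℕ) (f : dimDrop n) : Matrix (Fin (n + 1)) (Fin (n + 1)) ℂ :=
  fun i j => (f : C(unitInterval, MM n)) 0 (i, 0) (j, 0)

def e1 (n : ℕ) (f : dimDrop n) : Matrix (Fin (n + 2)) (Fin (n + 2)) ℂ :=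
  fun i j => (f : C(unitInterval, MM n)) 1 (0, i) (0, j)

lemma e0_eq (n : ℕ) (f : dimDrop n) (x : Matrix (Fin (n + 1)) (Fin (n + 1)) ℂ)
    (h : (f : C(unitInterval, MM n)) 0 = lft n x) : e0 n f = x := by
  ext i j
  unfold e0
  rw [h, lft_apply]

lemma e1_eq (n : ℕ) (f : dimDrop n) (x : Matrix (Fin (n + 2)) (Fin (n + 2)) ℂ)
    (h : (f : C(unitInterval, MM n)) 1 = rgt n x) : e1 n f = x := by
  ext i j
  unfold e1
  rw [h, rgt_apply]

lemma e0_spec (n : ℕ) (f : dimDrop n) : (f : C(unitInterval, MM n)) 0 = lft n (e0 n f) := by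
  obtain ⟨x, hx⟩ := f.2.1
  rw [e0_eq n f x hx, hx]

lemma e1_spec (n : ℕ) (f : dimDrop n) : (f : C(unitInterval, MM n)) 1 = rgt n (e1 n f) := by
  obtain ⟨x, hx⟩ := f.2.2
  rw [e1_eq n f x hx, hx]

def E0 (n : ℕ) : dimDrop n →⋆ₐ[ℂ] Matrix (Fin (n + 1)) (Fin (n + 1)) ℂ where
  toFun := e0 n
  map_one' := e0_eq n 1 1 (by rw [lft_one]; rfl)
  map_mul' := fun f g => e0_eq n _ _ (by
    rw [← lft_mul, ← e0_spec, ← e0_spec]; rfl)
  map_zero' := by ext i j; rfl
  map_add' := fun f g => by ext i j; rfl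
  commutes' := fun c => e0_eq n _ _ (by
    rw [Algebra.algebraMap_eq_smul_one, Algebra.algebraMap_eq_smul_one, lft_smul, lft_one]; rfl)
  map_star' := fun f => e0_eq n _ _ (by rw [← lft_star, ← e0_spec]; rfl)

def E1 (n : ℕ) : dimDrop n →⋆ₐ[ℂ] Matrix (Fin (n + 2)) (Fin (n + 2)) ℂ where
  toFun := e1 n
  map_one' := e1_eq n 1 1 (by rw [rgt_one]; rfl)
  map_mul' := fun f g => e1_eq n _ _ (by
    rw [← rgt_mul, ← e1_spec, ← e1_spec]; rfl)
  map_zero' := by ext i j; rfl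
  map_add' := fun f g => by ext i j; rfl
  commutes' := fun c => e1_eq n _ _ (by
    rw [Algebra.algebraMap_eq_smul_one, Algebra.algebraMap_eq_smul_one, rgt_smul, rgt_one]; rfl)
  map_star' := fun f => e1_eq n _ _ (by rw [← rgt_star, ← e1_spec]; rfl)

section vals

variable {n : ℕ} {φ0 : Fin (n + 1) → Fin (n + 1) → dimDrop n} {k0 : Fin (n + 1) → dimDrop n}
    {v0 : dimDrop n}

lemma E0_ph (HV : Vals n φ0 k0 v0) (i j : Fin (n + 1)) :
    E0 n (φ0 i j) = Matrix.single i j 1 := by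
  refine e0_eq n _ _ ?_
  rw [HV.ph]
  obtain ⟨-, -, -, -, -, h0, -, -⟩ := T_WU.t_WU n
  unfold phf
  rw [show ((0 : unitInterval) : ℝ) = 0 from rfl, h0, star_one, one_mul, mul_one, sub_zero]
  ext p q
  unfold D0 lft
  rw [Matrix.kronecker_apply, Matrix.of_apply, Matrix.single_apply, Matrix.one_apply]
  by_cases h1 : i = p.1 <;> by_cases h2 : j = q.1 <;> by_cases h3 : p.2 = q.2 <;>
    simp [h1, h2, h3, Ne.symm]

lemma E0_v (HV : Vals n φ0 k0 v0) : E0 n v0 = 0 := by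
  refine e0_eq n _ _ ?_
  rw [HV.vh]
  unfold vhf
  have : V0 n (Real.sqrt ((0 : unitInterval) : ℝ)) = 0 := by
    ext p q
    simp [V0]
  rw [this, mul_zero, zero_mul]
  ext p q
  simp [lft]

lemma E1_ph (HV : Vals n φ0 k0 v0) (i j : Fin (n + 1)) :
    E1 n (φ0 i j) = Matrix.single i.castSucc j.castSucc 1 := by
  refine e1_eq n _ _ ?_
  rw [HV.ph]
  obtain ⟨-, hs, -, hP, -, -, h0, -⟩ := T_WU.t_WU n
  unfold phf
  rw [show ((1 : unitInterval) : ℝ) = 1 from rfl, h0, hs, sub_self]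
  ext p q
  rw [hP]
  obtain ⟨a, k⟩ := p
  obtain ⟨b, l⟩ := q
  unfold D0 rgt
  rw [Matrix.kronecker_apply, Matrix.of_apply, Matrix.single_apply, Matrix.one_apply]
  refine Fin.lastCases ?_ (fun k => ?_) k
  · rw [T_WU.flp_last]
    simp [Fin.castSucc_ne_last, Ne.symm]
  · rw [T_WU.flp_cast]
    refine Fin.lastCases ?_ (fun l => ?_) l
    · rw [T_WU.flp_last]
      simp [Fin.castSucc_ne_last]
    · rw [T_WU.flp_cast]
      simp only [Fin.castSucc_inj, Fin.castSucc_ne_last, if_false]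
      by_cases h1 : i = k <;> by_cases h2 : j = l <;> by_cases h3 : a = b <;>
        simp [h1, h2, h3, Ne.symm]

lemma E1_v (HV : Vals n φ0 k0 v0) :
    E1 n v0 = Matrix.single 0 (Fin.last (n + 1)) 1 := by
  refine e1_eq n _ _ ?_
  rw [HV.vh]
  obtain ⟨-, hs, -, hP, -, -, h0, -⟩ := T_WU.t_WU n
  unfold vhf
  rw [show ((1 : unitInterval) : ℝ) = 1 from rfl, h0, hs, Real.sqrt_one]
  ext p q
  rw [hP]
  obtain ⟨a, k⟩ := p
  obtain ⟨b, l⟩ := q
  unfold V0 rgt
  rw [Matrix.kronecker_apply, Matrix.of_apply, Matrix.single_apply, Matrix.one_apply]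
  refine Fin.lastCases ?_ (fun k => ?_) k
  · rw [T_WU.flp_last]
    have h' : ¬ ((0 : Fin (n + 2)) = Fin.last (n + 1) ∧ Fin.last (n + 1) = l) :=
      fun h => absurd (congrArg Fin.val h.1) (by simp)
    rw [if_neg (fun h => Fin.castSucc_ne_last _ h.2.2.symm), if_neg h', mul_zero]
  · rw [T_WU.flp_cast]
    refine Fin.lastCases ?_ (fun l => ?_) l
    · rw [T_WU.flp_last]
      simp only [Fin.castSucc_inj]
      by_cases h1 : k = 0 <;> by_cases h3 : a = b
      · simp [h1, h3]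
      · simp [h1, h3]
      · have : ¬ (0 : Fin (n + 2)) = k.castSucc := by
          intro h
          apply h1
          rw [← Fin.castSucc_zero] at h
          exact (Fin.castSucc_injective _ h).symm
        simp [h1, h3, this]
      · simp [h1, h3]
    · rw [T_WU.flp_cast]
      simp [Fin.castSucc_ne_last, Ne.symm]

end vals

end Pool.Agent.N618.DT
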