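import Pool.Agent.N618.DT.Alg

/-!
Project DT (MP_fb67b4_an): matrix units and star homomorphisms of matrix algebras (helper618).
-/

set_option autoImplicit false

noncomputable section

namespace Pool.Agent.N618.DT

open Pool.Agent.N299 Pool.Agent.N299.DT

section mu

variable {F : Type} [CStarAlgebra F] {m : ℕ}

/-- the map `x ↦ ∑ x k l b_k b_l*` -/
def muf (b : Fin m → F) (x : Matrix (Fin m) (Fin m) ℂ) : F :=
  ∑ k, ∑ l, x k l • (b k * star (b l))

lemma muf_mul (b : Fin m → F) (p : F) (h1 : ∀ k l, star (b k) * b l = if k = l then p else 0)
    (h2 : ∀ k, b k * p = b k) (x y : Matrix (Fin m) (Fin m) ℂ) :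
    muf b (x * y) = muf b x * muf b y := by
  have e : ∀ k l k' l', (x k l • (b k * star (b l))) * (y k' l' • (b k' * star (b l')))
      = if l = k' then (x k l * y l l') • (b k * star (b l')) else 0 := by
    intro k l k' l'
    rw [smul_mul_smul_comm]
    have : b k * star (b l) * (b k' * star (b l')) = b k * (star (b l) * b k') * star (b l') := by
      simp only [mul_assoc]
    rw [this, h1]
    by_cases h : l = k'
    · subst h
      rw [if_pos rfl, if_pos rfl, h2]
    · rw [if_neg h, if_neg h, mul_zero, zero_mul, smul_zero]
  unfold muf
  rw [Finset.sum_mul]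
  refine Finset.sum_congr rfl fun k _ => ?_
  rw [Finset.sum_mul]
  simp_rw [Finset.mul_sum, e]
  simp only [Matrix.mul_apply, Finset.sum_smul]
  rw [Finset.sum_comm]
  refine Finset.sum_congr rfl fun l _ => ?_
  rw [Finset.sum_comm]
  refine Finset.sum_congr rfl fun l' _ => ?_
  simp

lemma mu (b : Fin m → F) (p : F) (h1 : ∀ k l, star (b k) * b l = if k = l then p else 0)
    (h2 : ∀ k, b k * p = b k) (h3 : ∑ k, b k * star (b k) = 1) :
    ∃ ρ : Matrix (Fin m) (Fin m) ℂ →⋆ₐ[ℂ] F, ∀ x, ρ x = muf b x := by
  have hone : muf b 1 = 1 := by
    unfold muf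
    simp only [Matrix.one_apply, ite_smul, one_smul, zero_smul, Finset.sum_ite_eq,
      Finset.mem_univ, if_true]
    exact h3
  have hsmul : ∀ (c : ℂ) x, muf b (c • x) = c • muf b x := by
    intro c x
    unfold muf
    simp only [Matrix.smul_apply, smul_eq_mul, Finset.smul_sum, mul_smul]
  have hadd : ∀ x y, muf b (x + y) = muf b x + muf b y := by
    intro x y
    unfold muf
    simp only [Matrix.add_apply, add_smul, Finset.sum_add_distrib]
  refine ⟨{ toFun := muf b
            map_one' := hone
            map_mul' := muf_mul b p h1 h2
            map_zero' := by simp [muf]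
            map_add' := hadd
            commutes' := fun c => by
              rw [Algebra.algebraMap_eq_smul_one, hsmul, hone, Algebra.algebraMap_eq_smul_one]
            map_star' := fun x => by
              unfold muf
              rw [star_sum, Finset.sum_comm]
              refine Finset.sum_congr rfl fun l _ => ?_
              rw [star_sum]
              refine Finset.sum_congr rfl fun k _ => ?_
              rw [star_smul, star_mul, star_star]
              rfl }, fun x => rfl⟩

end mu

end Pool.Agent.N618.DT
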